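import Pool.Agent.Helper701.Duo.Arith

/-!
# Duotaire: upper bounds for the nim-values, positions with all nim-values
-/

set_option autoImplicit false

namespace Pool.Agent.Y460.DU

open Pool.Agent.Helper701.Duo

/-- the nim-value is at most the number of options -/
theorem nim_le_opts (w : List Bool) : nim w ≤ (opts w).length := by
  classical
  have h1 : Finset.range (nim w) ⊆ ((opts w).map nim).toFinset := by
    intro v hv
    rw [Finset.mem_range] at hv
    obtain ⟨w', h2, h3⟩ := (nim_spec w).1 v hv
    rw [List.mem_toFinset, List.mem_map]
    exact ⟨w', mem_opts.2 h2, h3⟩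
  have h2 := Finset.card_le_card h1
  rw [Finset.card_range] at h2
  refine h2.trans ((List.toFinset_card_le _).trans ?_)
  rw [List.length_map]

/-- slack in the bound of the number of the options, from the first two cells -/
def sl : Bool → Bool → ℕ
  | false, false => 4
  | false, true => 2
  | true, false => 4
  | true, true => 3

theorem opts_bound : ∀ (r : List Bool) (a b : Bool),
    3 * (opts (a :: b :: r)).length + sl a b ≤ 2 * (a :: b :: r).length
  | [], a, b => by cases a <;> cases b <;> simp [opts, hd, sl]
  | c :: r, a, b => by
    have ih := opts_bound r b c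
    rw [opts, List.length_append, List.length_map]
    have h1 : (hd (a :: b :: c :: r)).length * 3 + sl a b ≤ 2 + sl b c := by
      cases a <;> cases b <;> cases c <;> simp [hd, sl]
    simp only [List.length_cons] at ih ⊢
    omega

/-- the upper bound by the number of the cells -/
theorem nim_length {w : List Bool} (hw : w ≠ []) : 3 * nim w + 2 ≤ 2 * w.length := by
  have h := nim_le_opts w
  match w, hw, h with
  | [a], _, h =>
    have h1 : (opts [a]).length = 0 := by cases a <;> simp [opts, hd]
    simp only [List.length_cons, List.length_nil]
    omega
  | a :: b :: r, _, h =>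
    have h1 := opts_bound r a b
    have h2 : 2 ≤ sl a b := by cases a <;> cases b <;> simp [sl]
    omega

theorem Move_count_pos {w w' : List Bool} (h : Move w w') : 1 ≤ w'.count true := by
  obtain ⟨u, v, ⟨-, rfl⟩ | ⟨-, rfl⟩⟩ := h
  · simp only [List.count_append]
    have h2 : List.count true [false, false, true] = 1 := by decide
    omega
  · simp only [List.count_append]
    have h2 : List.count true [true, false, false] = 1 := by decide
    omega

/-- the upper bound by the number of the pegs -/
theorem nim_count : ∀ (k : ℕ) (w : List Bool), nim w = k → 1 ≤ w.count true → k + 1 ≤ w.count true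
  | 0, w, _, h => h
  | k + 1, w, hk, _ => by
    obtain ⟨w', h1, h2⟩ := (nim_spec w).1 k (by omega)
    have h3 := nim_count k w' h2 (Move_count_pos h1)
    have h4 := h1.count_lt
    omega

theorem pad (x : List Bool) (j : ℕ) :
    nim (x ++ false :: List.replicate j false) = nim (x ++ [false]) := by
  induction j generalizing x with
  | zero => rfl
  | succ j ih =>
    have h1 := ih (x ++ [false])
    have h2 : x ++ false :: List.replicate (j + 1) false =
        x ++ [false] ++ false :: List.replicate j false := by
      rw [List.replicate_succ]
      simp
    rw [h2, h1, List.append_assoc]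
    exact nim_trim_right x

/-- the positions of the family end with an empty cell -/
theorem rep_snoc (m : ℕ) : ∃ r, true :: rep (m + 1) = r ++ [false] := by
  rw [rep_succ']
  exact ⟨true :: (rep m ++ [I, I, O, I, I, O, I, O, I]), by simp [B]⟩

theorem nim_rep (m : ℕ) : nim (true :: rep m) = 2 * m := by
  have h := fam_nim (a := 12) (c := 0) (by norm_num) (by norm_num) m
  rw [val_main, fam] at h
  have h1 : la 12 = [true] := rfl
  have h2 : rc 0 = [] := rfl
  rw [h1, h2, List.append_nil] at h
  exact h

theorem nim_one {w : List Bool} (h1 : opts w ≠ []) (h2 : ∀ w' ∈ opts w, w'.count true ≤ 1) :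
    nim w = 1 := by
  apply nim_unique
  · intro v hv
    obtain ⟨w', h3⟩ := List.exists_mem_of_ne_nil _ h1
    refine ⟨w', mem_opts.1 h3, ?_⟩
    rw [nim_few (h2 w' h3)]
    omega
  · intro w' h3
    rw [nim_few (h2 w' (mem_opts.2 h3))]
    omega

theorem nim_011 : nim [false, true, true] = 1 := nim_one (by decide) (by decide)

theorem nim_0110 : nim [false, true, true, false] = 1 := nim_one (by decide) (by decide)

theorem nim_011_pad : ∀ j : ℕ, nim (false :: true :: true :: List.replicate j false) = 1
  | 0 => nim_011
  | j + 1 => by
    have h := pad [false, true, true] j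
    rw [List.replicate_succ]
    exact h.trans nim_0110

/-- a position with the nim-value `k` with `n` cells -/
def pos (k n : ℕ) : List Bool :=
  if k = 0 then List.replicate n false
  else if k = 1 then false :: true :: true :: List.replicate (n - 3) false
  else if k % 2 = 0 then true :: (rep (k / 2) ++ List.replicate (n - (5 * k + 1)) false)
  else true :: (rep (k / 2) ++ false :: false :: true :: true ::
    List.replicate (n - 5 * k) false)

theorem rep_length (m : ℕ) : (rep m).length = 10 * m := by
  induction m with
  | zero => rfl
  | succ m ih =>
    rw [rep, List.length_append, ih]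
    simp [B]
    ring

theorem pos_length {k n : ℕ} (h : 5 * k + 1 ≤ n) : (pos k n).length = n := by
  unfold pos
  split_ifs with h0 h1 h2
  · rw [List.length_replicate]
  · simp only [List.length_cons, List.length_replicate]
    omega
  · simp only [List.length_cons, List.length_append, List.length_replicate, rep_length]
    omega
  · simp only [List.length_cons, List.length_append, List.length_replicate, rep_length]
    omega

theorem nim_pos (k n : ℕ) : nim (pos k n) = k := by
  unfold pos
  split_ifs with h0 h1 h2
  · rw [h0]
    apply nim_few
    rw [List.count_replicate]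
    simp
  · rw [h1]
    exact nim_011_pad _
  · obtain ⟨m, hm⟩ : ∃ m, k / 2 = m + 1 := ⟨k / 2 - 1, by omega⟩
    obtain ⟨r, hr⟩ := rep_snoc m
    have h3 := nim_rep (m + 1)
    have h4 : 2 * (m + 1) = k := by omega
    rw [hm]
    have h5 : ∀ j, true :: (rep (m + 1) ++ List.replicate j false) =
        r ++ false :: List.replicate j false := by
      intro j
      rw [← List.cons_append, hr]
      simp
    rw [h5, pad, ← hr, h3, h4]
  · obtain ⟨m, hm⟩ : ∃ m, k / 2 = m + 1 := ⟨k / 2 - 1, by omega⟩
    obtain ⟨r, hr⟩ := rep_snoc m
    have h3 := nim_rep (m + 1)
    have h4 : 2 * (m + 1) + 1 = k := by omega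
    rw [hm]
    have h5 : ∀ y, true :: (rep (m + 1) ++ false :: false :: y) =
        r ++ false :: false :: false :: y := by
      intro y
      rw [← List.cons_append, hr]
      simp
    rw [h5, nim_split, ← hr, h3, nim_011_pad, ← h4]
    have h6 : (2 * (m + 1)) ^^^ 1 = 2 * (m + 1) + 1 := by
      rw [Nat.xor_one_of_even (by simp)]
    exact h6

end Pool.Agent.Y460.DU
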