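import Pool.Agent.Y460.DU.Bd

/-!
# Duotaire: the positions with nim-values in a finite set do not form a regular language
-/

set_option autoImplicit false

namespace Pool.Agent.Y460.DU

open Pool.Agent.Helper701.Duo

/-- the second part of the test positions: an optional component with the nim-value one, then the
mirror image of `1 B^b` -/
def tl : Bool → ℕ → List Bool
  | false, b => false :: (true :: rep b).reverse
  | true, b => false :: false :: true :: true :: false :: false :: (true :: rep b).reverse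

theorem nim_glue (e : Bool) {a b : ℕ} (ha : 1 ≤ a) (hb : 1 ≤ b) :
    nim ((true :: rep a) ++ tl e b) = (2 * a) ^^^ (e.toNat ^^^ (2 * b)) := by
  obtain ⟨a, rfl⟩ : ∃ m, a = m + 1 := ⟨a - 1, by omega⟩
  obtain ⟨b, rfl⟩ : ∃ m, b = m + 1 := ⟨b - 1, by omega⟩
  obtain ⟨r, hr⟩ := rep_snoc a
  obtain ⟨s, hs⟩ := rep_snoc b
  have h1 := nim_rep (a + 1)
  have h2 := nim_rep (b + 1)
  have h3 : (true :: rep (b + 1)).reverse = false :: s.reverse := by
    rw [hs]
    simp
  have h4 : nim (false :: s.reverse) = 2 * (b + 1) := by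
    rw [← h3, nim_reverse, h2]
  cases e with
  | false =>
    have h5 : (true :: rep (a + 1)) ++ tl false (b + 1) =
        r ++ false :: false :: false :: s.reverse := by
      rw [tl, h3, hr]
      simp
    rw [h5, nim_split, ← hr, h1, h4]
    simp
  | true =>
    have h5 : (true :: rep (a + 1)) ++ tl true (b + 1) =
        r ++ false :: false :: false :: (true :: true :: false :: false :: false :: s.reverse) := by
      rw [tl, h3, hr]
      simp
    have h6 : nim (false :: true :: true :: false :: false :: false :: s.reverse) =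
        1 ^^^ (2 * (b + 1)) := by
      have h7 := nim_split [false, true, true] s.reverse
      rw [h4] at h7
      have h8 : nim ([false, true, true] ++ [false]) = 1 := nim_0110
      rw [h8] at h7
      exact h7
    rw [h5, nim_split, ← hr, h1, h6]
    simp

theorem xor_alg (A E C : ℕ) : A ^^^ (E ^^^ (A ^^^ C)) = C ^^^ E := by
  apply Nat.eq_of_testBit_eq
  intro i
  simp only [Nat.testBit_xor]
  cases A.testBit i <;> cases E.testBit i <;> cases C.testBit i <;> rfl

theorem exists_b {c a : ℕ} (h : c < a) : ∃ b, 1 ≤ b ∧ 2 * b = (2 * a) ^^^ (2 * c) := by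
  have h1 : Even ((2 * a) ^^^ (2 * c)) := by
    rw [Nat.even_xor]
    simp
  have h2 : (2 * a) ^^^ (2 * c) ≠ 0 := by
    intro h3
    have h4 := Nat.xor_eq_zero_iff.1 h3
    omega
  obtain ⟨b, hb⟩ := h1
  exact ⟨b, by omega, by omega⟩

/-- the positions with nim-value in the set `S` -/
def valueIn (S : Finset ℕ) : Language Bool := {w | nim w ∈ S}

theorem not_regular (S : Finset ℕ) (hS : S.Nonempty) : ¬ (valueIn S).IsRegular := by
  intro h
  have hfin := h.finite_range_leftQuotient
  obtain ⟨s, hs⟩ := hS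
  obtain ⟨t, ht⟩ : ∃ t, ∀ x ∈ S, x < 2 ^ t := by
    refine ⟨S.sup id, fun x hx => ?_⟩
    have h1 : x ≤ S.sup id := Finset.le_sup (f := id) hx
    exact lt_of_le_of_lt h1 Nat.lt_two_pow_self
  obtain ⟨e, c, hv, hc⟩ : ∃ (e : Bool) (c : ℕ), s = (2 * c) ^^^ e.toNat ∧ c ≤ s := by
    rcases Nat.even_or_odd' s with ⟨c, hc | hc⟩
    · exact ⟨false, c, by rw [hc]; simp, by omega⟩
    · refine ⟨true, c, ?_, by omega⟩
      rw [hc]
      have h6 : (2 * c) ^^^ 1 = 2 * c + 1 := Nat.xor_one_of_even (by simp)
      exact h6.symm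
  have hinj : Function.Injective
      (fun i : ℕ => (valueIn S).leftQuotient (true :: rep (2 ^ (t + i)))) := by
    intro i j h1
    by_contra hij
    have hti : c < 2 ^ (t + i) := by
      have h2 : 2 ^ t ≤ 2 ^ (t + i) := Nat.pow_le_pow_right (by norm_num) (by omega)
      have h3 := ht s hs
      omega
    obtain ⟨b, hb, h2⟩ := exists_b hti
    have h3 : tl e b ∈ (valueIn S).leftQuotient (true :: rep (2 ^ (t + i))) := by
      show nim ((true :: rep (2 ^ (t + i))) ++ tl e b) ∈ S
      rw [nim_glue e Nat.one_le_two_pow hb, h2, xor_alg, ← hv]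
      exact hs
    have h1' : (valueIn S).leftQuotient (true :: rep (2 ^ (t + i))) =
        (valueIn S).leftQuotient (true :: rep (2 ^ (t + j))) := h1
    rw [h1'] at h3
    have h4 : nim ((true :: rep (2 ^ (t + j))) ++ tl e b) ∈ S := h3
    rw [nim_glue e Nat.one_le_two_pow hb, h2] at h4
    have h5 := ht _ h4
    have h6 := ht _ hs
    have hle : 2 ^ t ≤ 2 ^ (t + j + 1) := Nat.pow_le_pow_right (by norm_num) (by omega)
    have h7 := Nat.testBit_lt_two_pow (h5.trans_le hle)
    have h8 := Nat.testBit_lt_two_pow (h6.trans_le hle)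
    have e1 : 2 * 2 ^ (t + j) = 2 ^ (t + j + 1) := (pow_succ' 2 (t + j)).symm
    have e2 : 2 * 2 ^ (t + i) = 2 ^ (t + i + 1) := (pow_succ' 2 (t + i)).symm
    have e3 : (2 ^ (t + j + 1)).testBit (t + j + 1) = true := Nat.testBit_two_pow_self
    have e4 : (2 ^ (t + i + 1)).testBit (t + j + 1) = false :=
      Nat.testBit_two_pow_of_ne (by omega)
    rw [hv] at h8
    rw [e1, e2] at h7
    simp only [Nat.testBit_xor, e3, e4] at h7 h8
    revert h7 h8
    cases (2 * c).testBit (t + j + 1) <;> cases e.toNat.testBit (t + j + 1) <;> simp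
  exact Set.infinite_range_of_injective hinj (hfin.subset (by
    rintro _ ⟨a, rfl⟩
    exact ⟨_, rfl⟩))

/-- the set of the nim-values of the positions with `n` cells -/
theorem values (n : ℕ) (hn : 1 ≤ n) : ∃ M : ℕ,
    {k | ∃ w : List Bool, w.length = n ∧ nim w = k} = Set.Iic M ∧ n ≤ 5 * M + 5 ∧
      3 * M + 2 ≤ 2 * n := by
  classical
  have hb : ∀ w : List Bool, w.length = n → 3 * nim w + 2 ≤ 2 * n := by
    intro w hw
    rw [← hw]
    refine nim_length ?_
    rintro rfl
    simp at hw
    omega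
  have hex : ∃ M, (∃ w : List Bool, w.length = n ∧ nim w = M) ∧
      ∀ w : List Bool, w.length = n → nim w ≤ M := by
    have hfin : {k | ∃ w : List Bool, w.length = n ∧ nim w = k}.Finite := by
      refine (Set.finite_Iic n).subset ?_
      rintro k ⟨w, h1, rfl⟩
      have := hb w h1
      rw [Set.mem_Iic]
      omega
    have hne : {k | ∃ w : List Bool, w.length = n ∧ nim w = k}.Nonempty :=
      ⟨_, List.replicate n false, List.length_replicate, rfl⟩
    obtain ⟨M, h1, h2⟩ := Set.exists_max_image _ id hfin hne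
    exact ⟨M, h1, fun w hw => h2 _ ⟨w, hw, rfl⟩⟩
  obtain ⟨M, ⟨w, hw, hM⟩, hmax⟩ := hex
  refine ⟨M, ?_, ?_, ?_⟩
  · ext k
    constructor
    · rintro ⟨w', h1, rfl⟩
      exact hmax w' h1
    · intro hk
      rw [Set.mem_Iic] at hk
      rcases Nat.lt_or_ge k M with h1 | h1
      · obtain ⟨w', h2, h3⟩ := (nim_spec w).1 k (by omega)
        exact ⟨w', by rw [h2.length_eq, hw], h3⟩
      · exact ⟨w, hw, by omega⟩
  · have h1 := hmax (pos ((n - 1) / 5) n) (pos_length (by omega))
    rw [nim_pos] at h1
    omega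
  · have := hb w hw
    rw [hM] at this
    exact this

end Pool.Agent.Y460.DU
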